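import Pool.Agent.W147.LF.Stm

/-! Project LF: the polynomial `A`. -/

set_option autoImplicit false

namespace Pool.Agent.W427.LF

open Polynomial Pool.Agent.W147.LF

theorem t_A : S_A := by
  classical
  intro K _ _ S f N hN hinj hf
  have hpair : ∀ s ∈ S, ∀ s' ∈ S, s ≠ s' → IsCoprime (f s) (f s') := by
    intro s hs s' hs' hne
    rcases EuclideanDomain.dvd_or_coprime (f s) (f s') (hf s hs).2.1 with h | h
    swap
    · exact h
    · exfalso
      apply hne
      apply hinj hs hs'
      have h1 : Associated (f s) (f s') := (hf s hs).2.1.associated_of_dvd (hf s' hs').2.1 h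
      exact Polynomial.eq_of_monic_of_associated (hf s hs).1 (hf s' hs').1 h1
  set M : K[X] := N * ∏ s ∈ S, f s with hM
  have hMm : M.Monic := hN.mul (monic_prod_of_monic _ _ fun s hs => (hf s hs).1)
  -- Chinese remainder theorem
  have hcrt : ∀ t : K[X] → K[X], ∃ A0 : K[X], N ∣ A0 ∧ ∀ s ∈ S, f s ∣ A0 - t s := by
    intro t
    have hx : ∀ s ∈ S, ∃ x y : K[X], x * (N * ∏ s' ∈ S.erase s, f s') + y * f s = 1 := by
      intro s hs
      have h1 : IsCoprime (N * ∏ s' ∈ S.erase s, f s') (f s) := by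
        refine IsCoprime.mul_left (hf s hs).2.2.symm ?_
        refine IsCoprime.prod_left fun s' hs' => ?_
        exact hpair s' (Finset.mem_of_mem_erase hs') s hs (Finset.ne_of_mem_erase hs')
      exact h1
    choose! x y hxy using hx
    refine ⟨∑ s ∈ S, t s * (x s * (N * ∏ s' ∈ S.erase s, f s')), ?_, ?_⟩
    · refine Finset.dvd_sum fun s _ => ?_
      exact ⟨t s * (x s * ∏ s' ∈ S.erase s, f s'), by ring⟩
    · intro s hs
      rw [← Finset.add_sum_erase S _ hs]
      have h2 : t s * (x s * (N * ∏ s' ∈ S.erase s, f s')) - t s = f s * (- (t s * y s)) := by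
        linear_combination (t s) * hxy s hs
      have h3 : f s ∣ ∑ s' ∈ S.erase s, t s' * (x s' * (N * ∏ s'' ∈ S.erase s', f s'')) := by
        refine Finset.dvd_sum fun s' hs' => ?_
        have h4 : f s ∣ ∏ s'' ∈ S.erase s', f s'' :=
          Finset.dvd_prod_of_mem f (Finset.mem_erase.2 ⟨(Finset.ne_of_mem_erase hs').symm, hs⟩)
        exact Dvd.dvd.mul_left (Dvd.dvd.mul_left (Dvd.dvd.mul_left h4 _) _) _
      have h5 : t s * (x s * (N * ∏ s' ∈ S.erase s, f s')) +
          ∑ s' ∈ S.erase s, t s' * (x s' * (N * ∏ s'' ∈ S.erase s', f s'')) - t s =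
          f s * (- (t s * y s)) +
            ∑ s' ∈ S.erase s, t s' * (x s' * (N * ∏ s'' ∈ S.erase s', f s'')) := by
        rw [← h2]; ring
      rw [h5]
      exact dvd_add (Dvd.intro _ rfl) h3
  refine ⟨M.natDegree, fun a ha t => ?_⟩
  obtain ⟨A0, hA0, hA1⟩ := hcrt t
  have hdeg : (A0 %ₘ M).degree < (X ^ (a - M.natDegree) * M).degree := by
    refine lt_of_lt_of_le (degree_modByMonic_lt A0 hMm) ?_
    rw [degree_mul (p := X ^ (a - M.natDegree)) (q := M), degree_X_pow]
    exact le_add_of_nonneg_left (by positivity)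
  have hXM : (X ^ (a - M.natDegree) * M).Monic := (monic_X_pow _).mul hMm
  refine ⟨A0 %ₘ M + X ^ (a - M.natDegree) * M, hXM.add_of_right hdeg, ?_, ?_, ?_⟩
  · rw [natDegree_add_eq_right_of_degree_lt hdeg, (monic_X_pow _).natDegree_mul hMm,
      natDegree_X_pow]
    omega
  · have h1 : A0 %ₘ M + X ^ (a - M.natDegree) * M = A0 + M * (X ^ (a - M.natDegree) - A0 /ₘ M) := by
      have h2 := modByMonic_add_div A0 M
      linear_combination h2
    rw [h1]
    exact dvd_add hA0 (Dvd.dvd.mul_right (Dvd.intro _ rfl) _)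
  · intro s hs
    have h1 : A0 %ₘ M + X ^ (a - M.natDegree) * M - t s =
        (A0 - t s) + M * (X ^ (a - M.natDegree) - A0 /ₘ M) := by
      have h2 := modByMonic_add_div A0 M
      linear_combination h2
    rw [h1]
    refine dvd_add (hA1 s hs) (Dvd.dvd.mul_right ?_ _)
    exact Dvd.dvd.mul_left (Finset.dvd_prod_of_mem f hs) N

end Pool.Agent.W427.LF
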